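import Mathlib

/-!
An even meet involution system of order 16 with a standard subgroup that is closed neither under
meets nor under bounded joins.
-/

namespace Pool.Agent.Results.MP_e25dcb_al.StandardSubgroupsNotClosed

/-- A word in `S`: a list of elements of `S`. -/
def IsWord {W : Type} (S : Finset W) (l : List W) : Prop := ∀ s ∈ l, s ∈ S

/-- The word length of `w` with respect to `S`. -/
noncomputable def len {W : Type} [Group W] (S : Finset W) (w : W) : ℕ :=
  sInf {n | ∃ l : List W, IsWord S l ∧ l.prod = w ∧ l.length = n}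

/-- The word `l` is reduced. -/
def IsReduced {W : Type} [Group W] (S : Finset W) (l : List W) : Prop :=
  IsWord S l ∧ l.length = len S l.prod

/-- The right weak order: some reduced word for `u` is an initial part of some reduced word
for `v`. -/
def wle {W : Type} [Group W] (S : Finset W) (u v : W) : Prop :=
  ∃ l m : List W, IsReduced S l ∧ IsReduced S (l ++ m) ∧ l.prod = u ∧ (l ++ m).prod = v

/-- `m` is the greatest lower bound of `X` in the weak order. -/
def IsMeet {W : Type} [Group W] (S : Finset W) (X : Set W) (m : W) : Prop :=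
  (∀ x ∈ X, wle S m x) ∧ ∀ y, (∀ x ∈ X, wle S y x) → wle S y m

/-- The set of the upper bounds of `X` in the weak order. -/
def upper {W : Type} [Group W] (S : Finset W) (X : Set W) : Set W := {y | ∀ x ∈ X, wle S x y}

/-- `j` is the join of `X`: the meet of the set of its upper bounds. -/
def IsJoin {W : Type} [Group W] (S : Finset W) (X : Set W) (j : W) : Prop :=
  IsMeet S (upper S X) j

/-- `(W, S)` is an even meet involution system: `S` is a finite generating set of involutions,
there is a homomorphism to `{1, -1}` with value `-1` on `S`, and in the weak order every nonempty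
set has a greatest lower bound. -/
structure IsEMIS {W : Type} [Group W] (S : Finset W) : Prop where
  gen : Subgroup.closure (S : Set W) = ⊤
  invol : ∀ s ∈ S, s ≠ 1 ∧ s * s = 1
  sign : ∃ ε : W →* ℤˣ, ∀ s ∈ S, ε s = -1
  meets : ∀ X : Set W, X.Nonempty → ∃ m, IsMeet S X m

/-! ### the group -/

/-- the group of order 16 -/
@[ext] structure W16 where
  a : Bool
  b : Bool
  c : Bool
  d : Bool
deriving DecidableEq, Fintype

namespace W16

instance : Mul W16 := ⟨fun v w =>
  ⟨xor v.a (if xor v.c v.d then w.b else w.a), xor v.b (if xor v.c v.d then w.a else w.b),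
   xor v.c (if xor v.a v.b then w.d else w.c), xor v.d (if xor v.a v.b then w.c else w.d)⟩⟩

instance : One W16 := ⟨⟨false, false, false, false⟩⟩

instance : Inv W16 := ⟨fun v =>
  ⟨if xor v.c v.d then v.b else v.a, if xor v.c v.d then v.a else v.b,
   if xor v.a v.b then v.d else v.c, if xor v.a v.b then v.c else v.d⟩⟩

theorem assoc' : ∀ u v w : W16, u * v * w = u * (v * w) := by decide +kernel

instance : Group W16 := Group.ofLeftAxioms assoc' (by decide +kernel) (by decide +kernel)

/-- the generators -/
def S : Finset W16 := {⟨true, false, false, false⟩, ⟨false, true, false, false⟩,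
  ⟨false, false, true, false⟩, ⟨false, false, false, true⟩}

/-- number of `true` -/
def wt (v : W16) : ℕ := v.a.toNat + v.b.toNat + v.c.toNat + v.d.toNat

/-- coordinatewise order -/
def sub (v w : W16) : Bool := (!v.a || w.a) && (!v.b || w.b) && (!v.c || w.c) && (!v.d || w.d)

theorem wt_mul : ∀ v w : W16, wt (v * w) ≤ wt v + wt w := by decide +kernel

theorem wt_S : ∀ s ∈ S, wt s = 1 := by decide +kernel

theorem exists_down : ∀ w : W16, w ≠ 1 → ∃ s ∈ S, wt (w * s) + 1 = wt w ∧ w * s * s = w := by
  decide +kernel

theorem sub_of : ∀ u z : W16, wt (u * z) = wt u + wt z → sub u (u * z) = true := by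
  decide +kernel

theorem of_sub : ∀ u v : W16, sub u v = true → wt u + wt (u⁻¹ * v) = wt v := by
  decide +kernel

theorem wt_prod (l : List W16) (hl : IsWord S l) : wt l.prod ≤ l.length := by
  induction l with
  | nil => decide
  | cons s l ih =>
    rw [List.prod_cons, List.length_cons]
    have h1 := wt_mul s l.prod
    have h2 := wt_S s (hl s (by simp))
    have h3 := ih fun t ht => hl t (by simp [ht])
    omega

theorem exists_word (n : ℕ) : ∀ w : W16, wt w = n → ∃ l : List W16, IsWord S l ∧ l.prod = w ∧
    l.length = n := by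
  induction n with
  | zero =>
    intro w hw
    refine ⟨[], fun s hs => by simp at hs, ?_, rfl⟩
    revert w
    decide
  | succ n ih =>
    intro w hw
    have hne : w ≠ 1 := by
      rintro rfl
      exact absurd hw (by change (0 : ℕ) ≠ n + 1; omega)
    obtain ⟨s, hs, h1, h2⟩ := exists_down w hne
    obtain ⟨l, hl, hp, hlen⟩ := ih (w * s) (by omega)
    refine ⟨l ++ [s], ?_, ?_, ?_⟩
    · intro t ht
      rcases List.mem_append.1 ht with h | h
      · exact hl t h
      · rw [List.mem_singleton.1 h]; exact hs
    · rw [List.prod_append, hp, List.prod_singleton, h2]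
    · simp [hlen]

theorem len_eq (w : W16) : len S w = wt w := by
  obtain ⟨l, hl, hp, hlen⟩ := exists_word (wt w) w rfl
  have hmem : wt w ∈ {n | ∃ l : List W16, IsWord S l ∧ l.prod = w ∧ l.length = n} :=
    ⟨l, hl, hp, hlen⟩
  unfold len
  apply le_antisymm
  · exact Nat.sInf_le hmem
  · apply le_csInf ⟨_, hmem⟩
    rintro n ⟨l', hl', hp', hlen'⟩
    rw [← hp', ← hlen']
    exact wt_prod l' hl'

theorem wle_iff (u v : W16) : wle S u v ↔ sub u v = true := by
  constructor
  · rintro ⟨l, m, ⟨h1, h2⟩, ⟨h3, h4⟩, rfl, rfl⟩
    rw [len_eq] at h2 h4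
    rw [List.prod_append] at h4 ⊢
    apply sub_of
    have h5 := wt_mul l.prod m.prod
    have h6 := wt_prod m fun s hs => h3 s (List.mem_append.2 (Or.inr hs))
    rw [List.length_append] at h4
    omega
  · intro h
    have h1 := of_sub u v h
    obtain ⟨l, hl, hp, hlen⟩ := exists_word (wt u) u rfl
    obtain ⟨m, hm, hq, hmlen⟩ := exists_word (wt (u⁻¹ * v)) (u⁻¹ * v) rfl
    refine ⟨l, m, ⟨hl, ?_⟩, ⟨?_, ?_⟩, hp, ?_⟩
    · rw [len_eq, hp, hlen]
    · intro s hs
      rcases List.mem_append.1 hs with h | h
      · exact hl s h
      · exact hm s h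
    · rw [len_eq, List.prod_append, hp, hq, mul_inv_cancel_left, List.length_append, hlen, hmlen,
        h1]
    · rw [List.prod_append, hp, hq, mul_inv_cancel_left]

theorem sub_iff (v w : W16) : sub v w = true ↔ (v.a = true → w.a = true) ∧
    (v.b = true → w.b = true) ∧ (v.c = true → w.c = true) ∧ (v.d = true → w.d = true) := by
  revert v w
  decide +kernel

open scoped Classical in
theorem meets (X : Set W16) : ∃ m, IsMeet S X m := by
  refine ⟨⟨decide (∀ x ∈ X, x.a = true), decide (∀ x ∈ X, x.b = true),
    decide (∀ x ∈ X, x.c = true), decide (∀ x ∈ X, x.d = true)⟩, ?_, ?_⟩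
  · intro x hx
    rw [wle_iff, sub_iff]
    simp only [decide_eq_true_eq]
    exact ⟨fun h => h x hx, fun h => h x hx, fun h => h x hx, fun h => h x hx⟩
  · intro y hy
    rw [wle_iff, sub_iff]
    simp only [decide_eq_true_eq]
    exact ⟨fun h x hx => ((sub_iff _ _).1 ((wle_iff _ _).1 (hy x hx))).1 h,
      fun h x hx => ((sub_iff _ _).1 ((wle_iff _ _).1 (hy x hx))).2.1 h,
      fun h x hx => ((sub_iff _ _).1 ((wle_iff _ _).1 (hy x hx))).2.2.1 h,
      fun h x hx => ((sub_iff _ _).1 ((wle_iff _ _).1 (hy x hx))).2.2.2 h⟩

/-- the sign character -/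
def sg : W16 →* ℤˣ where
  toFun v := if xor (xor v.a v.b) (xor v.c v.d) then -1 else 1
  map_one' := rfl
  map_mul' := by decide +kernel

theorem emis : IsEMIS S where
  gen := by
    rw [eq_top_iff]
    intro w _
    obtain ⟨l, hl, hp, _⟩ := exists_word (wt w) w rfl
    rw [← hp]
    exact Subgroup.list_prod_mem _ fun s hs => Subgroup.subset_closure (hl s hs)
  invol := by decide +kernel
  sign := ⟨sg, by decide +kernel⟩
  meets X _ := meets X

/-- the subset of the generators -/
def I : Finset W16 := {⟨true, false, false, false⟩, ⟨false, false, true, false⟩}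

/-- the standard subgroup -/
def T : Finset W16 := {⟨false, false, false, false⟩, ⟨true, false, false, false⟩,
  ⟨false, false, true, false⟩, ⟨true, false, false, true⟩, ⟨false, true, true, false⟩,
  ⟨true, true, false, true⟩, ⟨false, true, true, true⟩, ⟨true, true, true, true⟩}

/-- the standard subgroup -/
def TT : Subgroup W16 where
  carrier := {w | w ∈ T}
  one_mem' := by decide +kernel
  mul_mem' := by
    have h : ∀ u v : W16, u ∈ T → v ∈ T → u * v ∈ T := by decide +kernel
    intro u v
    exact h u v
  inv_mem' := by
    have h : ∀ u : W16, u ∈ T → u⁻¹ ∈ T := by decide +kernel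
    intro u
    exact h u

theorem closure_le : Subgroup.closure (I : Set W16) ≤ TT := by
  rw [Subgroup.closure_le]
  have h : ∀ u ∈ I, u ∈ T := by decide +kernel
  exact h

end W16

open W16

/-- There are an even meet involution system `(W, S)` and `I ⊆ S` such that the subgroup `W_I` is
not closed under meets of nonempty subsets, and not closed under joins of bounded subsets. -/
theorem result : ∃ (W : Type) (_ : Group W) (S : Finset W) (I : Finset W),
    IsEMIS S ∧ I ⊆ S ∧
    (∃ X : Set W, X.Nonempty ∧ X ⊆ Subgroup.closure (I : Set W) ∧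
      ∃ m, IsMeet S X m ∧ m ∉ Subgroup.closure (I : Set W)) ∧
    (∃ X : Set W, X ⊆ Subgroup.closure (I : Set W) ∧ (upper S X).Nonempty ∧
      ∃ j, IsJoin S X j ∧ j ∉ Subgroup.closure (I : Set W)) := by
  have ha : (⟨true, false, false, false⟩ : W16) ∈ Subgroup.closure (I : Set W16) :=
    Subgroup.subset_closure (by decide +kernel : _ ∈ I)
  have hc : (⟨false, false, true, false⟩ : W16) ∈ Subgroup.closure (I : Set W16) :=
    Subgroup.subset_closure (by decide +kernel : _ ∈ I)
  refine ⟨W16, inferInstance, S, I, emis, by decide +kernel, ?_, ?_⟩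
  · refine ⟨{⟨false, true, true, false⟩, ⟨true, true, false, true⟩}, ⟨_, Or.inl rfl⟩, ?_,
      ⟨false, true, false, false⟩, ⟨?_, ?_⟩, ?_⟩
    · rintro x (rfl | rfl)
      · have h : (⟨false, true, true, false⟩ : W16) =
            ⟨false, false, true, false⟩ * ⟨true, false, false, false⟩ := by decide +kernel
        rw [h]
        exact Subgroup.mul_mem _ hc ha
      · have h : (⟨true, true, false, true⟩ : W16) = ⟨true, false, false, false⟩ *
            (⟨false, false, true, false⟩ * ⟨true, false, false, false⟩) := by decide +kernel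
        rw [h]
        exact Subgroup.mul_mem _ ha (Subgroup.mul_mem _ hc ha)
    · rintro x (rfl | rfl)
      · rw [wle_iff]; decide
      · rw [wle_iff]; decide
    · intro y hy
      have h1 := (wle_iff _ _).1 (hy _ (Or.inl rfl))
      have h2 := (wle_iff _ _).1 (hy _ (Or.inr rfl))
      rw [wle_iff]
      clear hy
      revert h1 h2
      revert y
      decide +kernel
    · intro h
      have : (⟨false, true, false, false⟩ : W16) ∈ T := closure_le h
      revert this
      decide +kernel
  · refine ⟨{⟨true, false, false, false⟩, ⟨false, false, true, false⟩}, ?_,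
      ⟨⟨true, true, true, true⟩, ?_⟩, ⟨true, false, true, false⟩, ⟨?_, ?_⟩, ?_⟩
    · rintro x (rfl | rfl)
      · exact ha
      · exact hc
    · rintro x (rfl | rfl)
      · rw [wle_iff]; decide
      · rw [wle_iff]; decide
    · intro y hy
      have h1 := (wle_iff _ _).1 (hy _ (Or.inl rfl))
      have h2 := (wle_iff _ _).1 (hy _ (Or.inr rfl))
      rw [wle_iff]
      clear hy
      revert h1 h2
      revert y
      decide +kernel
    · intro y hy
      apply hy
      rintro x (rfl | rfl)
      · rw [wle_iff]; decide
      · rw [wle_iff]; decide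
    · intro h
      have : (⟨true, false, true, false⟩ : W16) ∈ T := closure_le h
      revert this
      decide +kernel

end Pool.Agent.Results.MP_e25dcb_al.StandardSubgroupsNotClosed
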